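import Pool.Agent.N600.L3.Stm

/-!
# L3/RI: a product inequality (helper123)
-/

set_option autoImplicit false

namespace Pool.Agent.N123.L3

open Pool.Agent.N600.L3

theorem exp_neg_le {y : ℝ} (h0 : 0 ≤ y) (h1 : y ≤ 1) : Real.exp (-y) ≤ 1 - y / 2 := by
  have h2 := Real.quadratic_le_exp_of_nonneg h0
  have h3 : 1 ≤ (1 - y / 2) * Real.exp y := by
    have h4 : (1 - y / 2) * (1 + y + y ^ 2 / 2) ≤ (1 - y / 2) * Real.exp y :=
      mul_le_mul_of_nonneg_left h2 (by linarith)
    have h5 : 1 ≤ (1 - y / 2) * (1 + y + y ^ 2 / 2) := by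
      have h6 : (1 - y / 2) * (1 + y + y ^ 2 / 2) = 1 + y * (2 - y ^ 2) / 4 := by ring
      have h7 : y ^ 2 ≤ 1 := by nlinarith
      rw [h6]
      have h8 : 0 ≤ y * (2 - y ^ 2) := mul_nonneg h0 (by linarith)
      linarith
    linarith
  rw [Real.exp_neg, inv_le_iff_one_le_mul₀ (Real.exp_pos y)]
  exact h3

theorem t_ri : S_RI := by
  intro R S _ _ x hx
  set c : ℝ := (Fintype.card S : ℝ) with hc
  have hc0 : 0 < c := by
    rw [hc]
    exact_mod_cast Fintype.card_pos
  set X : S → ℝ := fun s => ∑ r, x r s with hX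
  set A : ℝ := -((∑ s, X s) / c) with hA
  have h1 : ∏ r : Fin R, (1 - (∑ s, x r s) / c) ≤ Real.exp A := by
    have h2 : Real.exp A = ∏ r : Fin R, Real.exp (-((∑ s, x r s) / c)) := by
      rw [← Real.exp_sum, hA]
      congr 1
      rw [Finset.sum_neg_distrib, ← Finset.sum_div, hX, Finset.sum_comm]
    rw [h2]
    refine Finset.prod_le_prod (fun r _ => ?_) (fun r _ => ?_)
    · have h3 : (∑ s, x r s) ≤ c := by
        have : ∑ s, x r s ≤ ∑ s : S, (1 : ℝ) := Finset.sum_le_sum fun s _ => (hx r s).2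
        rwa [Finset.sum_const, nsmul_eq_mul, mul_one, Finset.card_univ] at this
      have h4 : (∑ s, x r s) / c ≤ 1 := (div_le_one hc0).mpr h3
      linarith
    · exact Real.one_sub_le_exp_neg _
  have h2 : ∀ s, Real.exp (-X s) ≤ ∏ r : Fin R, (1 - x r s / 2) := by
    intro s
    rw [hX, ← Finset.sum_neg_distrib, Real.exp_sum]
    refine Finset.prod_le_prod (fun r _ => (Real.exp_pos _).le) (fun r _ => ?_)
    exact exp_neg_le (hx r s).1 (hx r s).2
  have h3 : c * Real.exp A ≤ ∑ s, Real.exp (-X s) := by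
    have h4 : ∀ s, Real.exp A * (1 + (-X s - A)) ≤ Real.exp (-X s) := by
      intro s
      have h5 := Real.add_one_le_exp (-X s - A)
      have h6 : Real.exp (-X s) = Real.exp A * Real.exp (-X s - A) := by
        rw [← Real.exp_add]
        congr 1
        ring
      rw [h6]
      exact mul_le_mul_of_nonneg_left (by linarith) (Real.exp_pos _).le
    have h5 : ∑ s, Real.exp A * (1 + (-X s - A)) = c * Real.exp A := by
      rw [← Finset.mul_sum]
      have h6 : ∑ s, (1 + (-X s - A)) = c := by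
        have h7 : ∀ s, 1 + (-X s - A) = (1 - A) - X s := fun s => by ring
        rw [Finset.sum_congr rfl fun s _ => h7 s, Finset.sum_sub_distrib, Finset.sum_const,
          Finset.card_univ, nsmul_eq_mul, ← hc]
        have h8 : ∑ s, X s = -A * c := by
          rw [hA]
          field_simp
        rw [h8]
        ring
      rw [h6]
      ring
    rw [← h5]
    exact Finset.sum_le_sum fun s _ => h4 s
  calc c * ∏ r : Fin R, (1 - (∑ s, x r s) / c) ≤ c * Real.exp A :=
        mul_le_mul_of_nonneg_left h1 hc0.le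
    _ ≤ ∑ s, Real.exp (-X s) := h3
    _ ≤ _ := Finset.sum_le_sum fun s _ => h2 s

end Pool.Agent.N123.L3
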